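import Pool.Agent.Lib.MP_b4b3cb_nt.B3.All

/-! The parity of the 2-adic Selmer group of Bloch and Kato of a conjugate self-dual Galois
representation of an imaginary quadratic field in which `2` splits, whose reduction is isomorphic to
its conjugate up to semisimplification. -/

namespace Pool.Agent.Results.MP_b4b3cb_nt.BKThree

open NumberField IsDedekindDomain Matrix Pool.Agent.SelTwo

theorem result (L : Type) [Field L] [NumberField L] [IsCMField L] (hL : Module.finrank ℚ L = 2)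
    (E : Type) [NontriviallyNormedField E] [NormedAlgebra ℚ_[2] E] [FiniteDimensional ℚ_[2] E]
    (n : ℕ) (ρ : Gal L →* Matrix (Fin n) (Fin n) E) (hρ : Continuous ρ) (cj : Gal L → Gal L)
    (hcj : IsCj cj) (B : Matrix (Fin n) (Fin n) E) (b1 : B.IsSymm) (b2 : IsUnit B)
    (b3 : ∀ g, (ρ g)ᵀ * B * ρ (cj g) = cyc E g • B)
    (cc : ∀ g i, ‖((ρ (cj g)).charpoly - (ρ g).charpoly).coeff i‖ < 1)
    (inv : ∀ 𝔓 : Idl L, 𝔓.IsMaximal → fdim (ρ '' Dec 𝔓) = 0)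
    (sp : ∀ 𝔓 : Idl L, 𝔓.IsMaximal → 2 ∈ 𝔓 → ¬Nonsplit 𝔓)
    (nf : ∀ j, BKf.NoFix (BKf.Gw (PadicComplexInt 2) j) (BKf.Ec (PadicComplexInt 2)) ρ
      (frobenius _ 2))
    (j : AlgebraicClosure L →+* ℂ_[2]) (h : Fin n → ℤ)
    (dr : BKf.DeRham (BKf.Gw (PadicComplexInt 2) j) (BKf.Ed (PadicComplexInt 2)) ρ h)
    (Q : HeightOneSpectrum (𝓞 L) → Idl L) (hQ : ∀ w, (Q w).IsMaximal ∧ (Q w).under _ = w.asIdeal)
    (hF : {w | ∃ g ∈ Ine (Q w), ρ g ≠ 1}.Finite) (δ : L) (hδ : IsCMField.complexConj L δ = -δ)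
    (R : Finset (HeightOneSpectrum (𝓞 L)))
    (hR : ∀ w, (Ram (Q w) → w ∈ R ∧ w.valuation L δ = WithZero.exp (-1)) ∧
      (¬Ram (Q w) → w ∉ R ∧ w.valuation L δ = 1))
    (a : ℚ_[2]) (ha : j (algebraMap L _ δ) = algebraMap _ _ a)
    (Ψ : HeightOneSpectrum (𝓞 L) → AddChar (𝓞 L) E)
    (hΨ : ∀ w ∈ R, Ψ w ≠ 1 ∧ ∀ x ∈ w.asIdeal, Ψ w x = 1)
    (hG : ∏ w ∈ R, ∑ x ∈ Finset.range (Ideal.absNorm w.asIdeal),
      (jacobiSym x (Ideal.absNorm w.asIdeal) : E) * Ψ w x = -algebraMap _ E a)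
    (e : _ → E) (he : ∀ w ∈ R, Eps ρ (Q w) δ (Ψ w) (e w))
    (T : Finset (HeightOneSpectrum (𝓞 L))) (f : _ → ℕ)
    (hT : ∀ w ∈ T, w ∉ R ∧ Nonsplit (Q w) ∧ Art ρ (Q w) (f w))
    (hU : ∀ w ∉ R, w ∉ T → Nonsplit (Q w) → ∀ g ∈ Ine (Q w), ρ g = 1) :
    (Submodule.span E (BKf.Hf (PadicComplexInt 2) ρ)).FG ∧
      (-1) ^ (h1 ρ ⊤ (BKf.Hf (PadicComplexInt 2) ρ) +
        (Finset.univ.filter fun i => 0 < h i).card + ∑ w ∈ T, f w) = ∏ w ∈ R, e w := by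
  simp only [BKf.nofix_eq] at nf
  rw [BKf.deRham_eq] at dr
  rw [BKf.hf_eq]
  exact Pool.Agent.B3.finA L hL E n ρ cj hcj B j h Q R T δ a Ψ e f
    ⟨⟨hρ, b1, b2, b3⟩, nf, dr, ⟨⟨sp, hQ, hδ, hR⟩, inv, hF, hΨ, he, hT, hU⟩, ha, hG⟩ cc

end Pool.Agent.Results.MP_b4b3cb_nt.BKThree
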