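import Pool.Agent.Lib.MP_b4b3cb_nt.All

/-! The sign conjecture at `p = 2` for Hecke characters of CM fields with values in `ℤ_[2]ˣ`. -/

namespace Pool.Agent.Results.MP_b4b3cb_nt.SignTwoCM

open NumberField Pool.Agent.SignConj

theorem result (L : Type) [Field L] [NumberField L] [IsCMField L] (ι : ℂ ≃+* PadicAlgCl 2)
    (hι : ∀ (σ : L →+* ℂ) (x : L), ι (σ x) ∈ (algebraMap ℚ_[2] (PadicAlgCl 2)).range)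
    (𝔣 : Ideal (𝓞 L)) (a : (L →+* ℂ) → ℤ) (ψ : Ideal (𝓞 L) →* ℂ) (hH : IsHecke 𝔣 a ψ)
    (hC : ConjDual 𝔣 a ψ) (hS : SignNeg a ψ) (ρ : Gal L →* ℤ_[2]ˣ) (hρ : Continuous ρ)
    (hA : Attached ι 𝔣 ψ ρ) :
    ∃ x : Gal L → ℚ_[2], IsSelmer ι a ρ x ∧ ¬ CobOn ρ x ⊤ :=
  Pool.Agent.SC.all_Main L ι hι 𝔣 a ψ hH hC hS ρ hρ hA

end Pool.Agent.Results.MP_b4b3cb_nt.SignTwoCM
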