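import Pool.Agent.Lib.MP_b4b3cb_nt.SY.MainE
import Pool.Agent.Lib.MP_b4b3cb_nt.HF.Br6

/-! The parity of the 2-adic Selmer group of Bloch and Kato of the conjugate self-dual twists of the
even symmetric powers of an elliptic curve over the rational numbers, over an imaginary quadratic
field of odd class number in which `2` splits. -/

namespace Pool.Agent.Results.MP_b4b3cb_nt.SymEv

open NumberField IsDedekindDomain Matrix Pool.Agent.SelTwo Pool.Agent.SymTwo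

theorem result (L : Type) [Field L] [NumberField L] [IsCMField L] (hL : Module.finrank ℚ L = 2)
    (hh : Odd (classNumber L))
    (W : WeierstrassCurve ℤ) (hW : Odd W.Δ) (t : Gal L → Matrix (Fin 2) (Fin 2) ℤ_[2])
    (ht : Tate W t) (cj : Gal L → Gal L) (hcj : IsCj cj) (p r : HeightOneSpectrum (𝓞 L))
    (hp : 2 ∈ p.asIdeal) (hr : r.asIdeal.ramificationIdx (𝓞 (maximalRealSubfield L)) ≠ 1)
    (ν : Gal L →* ℚ_[2]) (hn : Continuous ν) (he : ∀ g, ν g * ν (cj g) = cyc ℚ_[2] g)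
    (hu : ∀ 𝔓 : Idl L, 𝔓.IsMaximal → 𝔓.under _ ≠ p.asIdeal → 𝔓.under _ ≠ r.asIdeal →
      ∀ g ∈ Ine 𝔓, ν g = 1)
    (E : Type) [NontriviallyNormedField E] [NormedAlgebra ℚ_[2] E]
    [FiniteDimensional ℚ_[2] E] (ψ : Gal L →* E) (hc : Continuous ψ) (ho : ∀ g, ‖ψ g - 1‖ < 1)
    (hd : ∀ g, ψ g * ψ (cj g) = 1)
    (Q : HeightOneSpectrum (𝓞 L) → Idl L) (hQ : ∀ w, (Q w).IsMaximal ∧ (Q w).under _ = w.asIdeal)
    (a : ℤ) (M : ℕ) (hM : 0 < M) (ha : ∀ g ∈ Ine (Q p), ψ g ^ M = (cyc E g ^ a) ^ M)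
    (hs : ∀ w : HeightOneSpectrum (𝓞 L),
      w.asIdeal.map (IsCMField.ringOfIntegersComplexConj L) = w.asIdeal → 2 ∉ w.asIdeal ∧
        (((W.baseChange L).minimal (w.valuation L).valuationSubring).HasAdditiveReduction
          (w.valuation L).valuationSubring →
          w.asIdeal.ramificationIdx (𝓞 (maximalRealSubfield L)) = 1 ∧ 3 ∉ w.asIdeal ∧
            ∀ g ∈ Ine (Q w), ψ g = 1))
    (k : ℕ) (ρ : Gal L →* Matrix (Fin (2 * k + 1)) (Fin (2 * k + 1)) E)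
    (hρ : ∀ g, ρ g = (ψ g * algebraMap ℚ_[2] E (ν g) / cyc E g ^ k) •
      sym (2 * k) ((t g).map fun x => algebraMap ℚ_[2] E x)) :
    (Submodule.span E (BKf.Hf (PadicComplexInt 2) ρ)).FG ∧
      (-1 : ℤ) ^ h1 ρ ⊤ (BKf.Hf (PadicComplexInt 2) ρ) =
        (-1) ^ (min (k + 1 + a).toNat (2 * k + 1) + 1 + {w : HeightOneSpectrum (𝓞 L) |
          w.asIdeal.map (IsCMField.ringOfIntegersComplexConj L) = w.asIdeal ∧
          ∃ g ∈ Dec (Q w), ψ g ≠ 1}.ncard) := by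
  rw [BKf.hf_eq]
  exact SY.mainE hL hh W hW t ht ψ ν cj hcj ⟨hc, ho, fun g => by simpa using hd g⟩
    ⟨hn, SY.res_one hn, fun g => by simpa using he g⟩ Q hQ p r hp hr hu a
    ⟨M, hM, ha⟩ (fun w h => ⟨(hs w h).1, fun c => ⟨fun r => r (by rw [(hQ w).2]; exact
      ((hs w h).2 c).1), ((hs w h).2 c).2⟩⟩) k ρ hρ

end Pool.Agent.Results.MP_b4b3cb_nt.SymEv
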