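import Pool.Agent.Lib.MP_b4b3cb_nt.SY.MainT
import Pool.Agent.Lib.MP_b4b3cb_nt.HF.Br6

/-! The parity of the 2-adic Selmer group of Bloch and Kato of the anticyclotomic twists of the odd
symmetric powers of an elliptic curve over the rational numbers, over an imaginary quadratic field
in which `2` splits. -/

namespace Pool.Agent.Results.MP_b4b3cb_nt.SymTw

open NumberField IsDedekindDomain Matrix Pool.Agent.SelTwo Pool.Agent.SymTwo

theorem result (L : Type) [Field L] [NumberField L] [IsCMField L] (hL : Module.finrank ℚ L = 2)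
    (W : WeierstrassCurve ℤ) (hW : Odd W.Δ) (t : Gal L → Matrix (Fin 2) (Fin 2) ℤ_[2])
    (ht : Tate W t) (E : Type) [NontriviallyNormedField E] [NormedAlgebra ℚ_[2] E]
    [FiniteDimensional ℚ_[2] E] (ψ : Gal L →* E) (hc : Continuous ψ) (hr : ∀ g, ‖ψ g - 1‖ < 1)
    (cj : Gal L → Gal L) (hcj : IsCj cj) (hd : ∀ g, ψ g * ψ (cj g) = 1)
    (Q : HeightOneSpectrum (𝓞 L) → Idl L) (hQ : ∀ w, (Q w).IsMaximal ∧ (Q w).under _ = w.asIdeal)
    (p : HeightOneSpectrum (𝓞 L)) (hp : 2 ∈ p.asIdeal) (a : ℤ) (M : ℕ) (hM : 0 < M)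
    (ha : ∀ g ∈ Ine (Q p), ψ g ^ M = (cyc E g ^ a) ^ M)
    (hs : ∀ w : HeightOneSpectrum (𝓞 L),
      w.asIdeal.map (IsCMField.ringOfIntegersComplexConj L) = w.asIdeal → 2 ∉ w.asIdeal ∧
        (((W.baseChange L).minimal (w.valuation L).valuationSubring).HasAdditiveReduction
          (w.valuation L).valuationSubring →
          w.asIdeal.ramificationIdx (𝓞 (maximalRealSubfield L)) = 1 ∧ 3 ∉ w.asIdeal ∧
            ∀ g ∈ Ine (Q w), ψ g = 1))
    (k : ℕ) (ρ : Gal L →* Matrix (Fin (2 * k + 1 + 1)) (Fin (2 * k + 1 + 1)) E)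
    (hρ : ∀ g, ρ g = (ψ g / cyc E g ^ k) • sym (2 * k + 1) ((t g).map fun x => algebraMap ℚ_[2] E x)) :
    (Submodule.span E (BKf.Hf (PadicComplexInt 2) ρ)).FG ∧
      (-1 : ℤ) ^ h1 ρ ⊤ (BKf.Hf (PadicComplexInt 2) ρ) = (-1) ^ (min (k + 1 + a).toNat (2 * k + 2) +
        {w : HeightOneSpectrum (𝓞 L) |
          w.asIdeal.map (IsCMField.ringOfIntegersComplexConj L) = w.asIdeal ∧
          ((W.baseChange L).minimal (w.valuation L).valuationSubring).HasMultiplicativeReduction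
            (w.valuation L).valuationSubring ∧ (∀ g ∈ Ine (Q w), ψ g = 1) ∧
          (((W.baseChange L).minimal
            (w.valuation L).valuationSubring).HasSplitMultiplicativeReduction
            (w.valuation L).valuationSubring ↔ ∀ g ∈ Dec (Q w), ψ g = 1)}.ncard) := by
  rw [BKf.hf_eq]
  exact SY.mainT hL W hW t ht ψ cj hcj ⟨hc, hr, fun g => by simpa using hd g⟩ Q hQ p hp a
    ⟨M, hM, ha⟩ (fun w h => ⟨(hs w h).1, fun c => ⟨fun r => r (by rw [(hQ w).2]; exact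
      ((hs w h).2 c).1), ((hs w h).2 c).2⟩⟩) k ρ hρ

end Pool.Agent.Results.MP_b4b3cb_nt.SymTw
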